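import Pool.Agent.Run7.h847.WU.TRE

/-!
# Project WU, piece LAW: the law of the forests
-/

set_option autoImplicit false

namespace Run7.h847.WU

open MeasureTheory Filter Finset ProbabilityTheory
open scoped ENNReal Topology unitInterval
open Pool.Agent.TH968.UST (Conn IsSpan trees wired touch ustProb)
open Run7.h381.WU

variable {V : Type}

/-- the sigma-algebra of one coordinate -/
def cm (i : V × ℕ) : MeasurableSpace (V → ℕ → I) :=
  MeasurableSpace.comap (fun ξ => ξ i.1 i.2) inferInstance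

/-- the sigma-algebra of a set of coordinates -/
def sig (J : Set (V × ℕ)) : MeasurableSpace (V → ℕ → I) := ⨆ i ∈ J, cm i

theorem cm_le (i : V × ℕ) : cm i ≤ (MeasurableSpace.pi : MeasurableSpace (V → ℕ → I)) := by
  unfold cm
  apply Measurable.comap_le
  fun_prop

theorem sig_mono {J J' : Set (V × ℕ)} (h : J ⊆ J') : sig J ≤ sig J' := biSup_mono h

theorem sig_le (J : Set (V × ℕ)) : sig J ≤ (MeasurableSpace.pi : MeasurableSpace (V → ℕ → I)) :=
  iSup₂_le fun i _ => cm_le i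

theorem iIndep_cm : iIndep (cm (V := V)) (labels2 V) := by
  have h := iIndepFun_uncurry_infinitePi' (ι := V) (κ := ℕ) (Ω := fun _ _ => I)
    (𝓧 := fun _ _ => I) (X := fun _ _ x => x)
    (μ := fun (_ : V) (_ : ℕ) => (volume : Measure I)) (by fun_prop)
  exact h

theorem indep_sig {J J' : Set (V × ℕ)} (h : Disjoint J J') :
    Indep (sig J) (sig J') (labels2 V) :=
  indep_iSup_of_disjoint cm_le iIndep_cm h

instance : IsProbabilityMeasure (labels2 V) := by
  unfold labels2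
  infer_instance

theorem prod_sig {ι : Type} (s : Finset ι) (J : ι → Set (V × ℕ)) (A : ι → Set (V → ℕ → I))
    (hd : (s : Set ι).PairwiseDisjoint J) (hA : ∀ i ∈ s, MeasurableSet[sig (J i)] (A i)) :
    MeasurableSet[sig (⋃ i ∈ s, J i)] (⋂ i ∈ s, A i) ∧
    labels2 V (⋂ i ∈ s, A i) = ∏ i ∈ s, labels2 V (A i) := by
  classical
  have hm : ∀ t : Finset ι, t ⊆ s → MeasurableSet[sig (⋃ i ∈ t, J i)] (⋂ i ∈ t, A i) := by
    intro t ht
    refine @Finset.measurableSet_biInter _ _ (sig (⋃ i ∈ t, J i)) _ t (fun i hi => ?_)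
    refine sig_mono ?_ _ (hA i (ht hi))
    exact Set.subset_biUnion_of_mem (u := fun i => J i) (Finset.mem_coe.2 hi)
  refine ⟨hm s (Finset.Subset.refl s), ?_⟩
  induction s using Finset.induction_on with
  | empty => simp
  | insert a s ha ih =>
    rw [Finset.prod_insert ha, Finset.set_biInter_insert]
    have h1 : Disjoint (J a) (⋃ i ∈ s, J i) := by
      rw [Set.disjoint_iUnion₂_right]
      intro i hi
      exact hd (by simp) (by simp [hi]) (fun h => ha (h ▸ hi))
    have h2 := (Indep_iff _ _ _).1 (indep_sig h1) (A a) (⋂ i ∈ s, A i) (hA a (by simp))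
      (hm s (Finset.subset_insert a s))
    rw [h2, ih (hd.subset (by simp)) (fun i hi => hA i (by simp [hi]))
      (fun t ht => hm t (ht.trans (Finset.subset_insert a s)))]

/-- the law of one coordinate -/
theorem labels2_coord (v : V) (j : ℕ) {B : Set I} (hB : MeasurableSet B) :
    labels2 V {ξ | ξ v j ∈ B} = volume B := by
  have h1 : (labels2 V).map (fun ξ => ξ v) = Measure.infinitePi fun _ => (volume : Measure I) := by
    unfold labels2
    exact Measure.infinitePi_map_eval _ v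
  have h2 : (Measure.infinitePi fun _ : ℕ => (volume : Measure I)).map (fun x => x j) = volume :=
    Measure.infinitePi_map_eval _ j
  have h3 : {ξ : V → ℕ → I | ξ v j ∈ B} = (fun ξ : V → ℕ → I => ξ v) ⁻¹' ((fun x : ℕ → I => x j) ⁻¹' B) := rfl
  rw [h3, ← Measure.map_apply (by fun_prop) ((measurable_pi_apply j) hB), h1,
    ← Measure.map_apply (by fun_prop) hB, h2]

open Classical in
/-- the smaller classes contained in `C` -/
noncomputable def sub (s : Setoid V) (C : Finset V) : Finset (Finset V) :=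
  C.powerset.filter (IsClass s)

theorem mem_sub {s : Setoid V} {C D : Finset V} : D ∈ sub s C ↔ D ⊆ C ∧ IsClass s D := by
  classical
  unfold sub
  rw [Finset.mem_filter, Finset.mem_powerset]

/-- the probability of a tree at the sub-classes -/
noncomputable def qq (G : SimpleGraph V) (s : Setoid V) (C : Finset V) : ℝ :=
  ∏ D ∈ sub s C, ((trees ⊥ (ins G D)).card : ℝ)⁻¹

/-- a set of edges inside the smaller classes is determined by its parts -/
theorem part_eq_iff {G : SimpleGraph V} {s t : Setoid V} (hst : s ≤ t)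
    (hs : ∀ v, {w | s v w}.Finite) {C : Finset V} (hC : IsClass t C) {S : Set (Sym2 V)}
    (hS : S ⊆ Inn s) {T : Finset (Sym2 V)} (hT : T ⊆ part G C (Inn s)) :
    part G C S = T ↔ ∀ D ∈ sub s C, part G D S = part G D T := by
  constructor
  · rintro rfl D hD
    exact (part_part (mem_sub.1 hD).1 S).symm
  · intro h
    have key : ∀ e ∈ ins G C, e ∈ Inn s → ∃ D ∈ sub s C, e ∈ ins G D := by
      intro e he heI
      obtain ⟨a, ha⟩ := sym2_exists_mem e
      obtain ⟨D, hD, haD⟩ := exists_isClass hs a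
      refine ⟨D, mem_sub.2 ⟨fun w hw => ?_, hD⟩, mem_ins.2 ⟨(mem_ins.1 he).1, fun b hb => ?_⟩⟩
      · exact (isClass_rel hC ((mem_ins.1 he).2 a ha)).2 (hst ((isClass_rel hD haD).1 hw))
      · exact (isClass_rel hD haD).2 (heI a ha b hb)
    ext e
    constructor
    · intro he
      obtain ⟨he1, he2⟩ := mem_part.1 he
      obtain ⟨D, hD, heD⟩ := key e he1 (hS he2)
      have : e ∈ part G D (T : Set (Sym2 V)) := by
        rw [← h D hD]
        exact mem_part.2 ⟨heD, he2⟩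
      exact Finset.mem_coe.1 (mem_part.1 this).2
    · intro he
      obtain ⟨he1, he2⟩ := mem_part.1 (hT he)
      obtain ⟨D, hD, heD⟩ := key e he1 he2
      have : e ∈ part G D S := by
        rw [h D hD]
        exact mem_part.2 ⟨heD, Finset.mem_coe.2 he⟩
      exact mem_part.2 ⟨he1, (mem_part.1 this).2⟩

/-- the law of the forest in the classes -/
def Law (K : Finset (Sym2 ℕ) → Finset (Sym2 ℕ) → Finset (Sym2 ℕ) → I → Finset (Sym2 ℕ))
    (G : SimpleGraph V) (R : ℕ → Setoid V) (ℓ : V → I) (k : ℕ) : Prop :=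
  ∀ C, IsClass (R k) C → ∀ T,
    MeasurableSet[sig ((C : Set V) ×ˢ Set.Iic k)] {ξ | part G C (Tk K G R ℓ ξ k) = T} ∧
    (T ∈ trees ⊥ (ins G C) →
      (labels2 V {ξ | part G C (Tk K G R ℓ ξ k) = T}).toReal = ((trees ⊥ (ins G C)).card : ℝ)⁻¹)

theorem law_sub (h6 : S_T6)
    {K : Finset (Sym2 ℕ) → Finset (Sym2 ℕ) → Finset (Sym2 ℕ) → I → Finset (Sym2 ℕ)}
    {G : SimpleGraph V} {R : ℕ → Setoid V} {ℓ : V → I}
    (hR : Monotone R) (hfin : ∀ k v, {w | R k v w}.Finite)
    {k : ℕ} (hL : Law K G R ℓ k) {C : Finset V} (hC : IsClass (R (k + 1)) C)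
    (T : Finset (Sym2 V)) :
    MeasurableSet[sig ((C : Set V) ×ˢ Set.Iic k)] {ξ | part G C (Tk K G R ℓ ξ k) = T} ∧
    (T ∈ trees ⊥ (part G C (Inn (R k))) →
      (labels2 V {ξ | part G C (Tk K G R ℓ ξ k) = T}).toReal = qq G (R k) C) := by
  by_cases hT : T ⊆ part G C (Inn (R k))
  · have h1 : {ξ | part G C (Tk K G R ℓ ξ k) = T} =
        ⋂ D ∈ sub (R k) C, {ξ | part G D (Tk K G R ℓ ξ k) = part G D T} := by
      ext ξ
      rw [Set.mem_setOf_eq, part_eq_iff (hR (Nat.le_succ k)) (hfin k) hC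
        (fun e he => (Tk_sub K G R ℓ ξ k he).1) hT, Set.mem_iInter₂]
      rfl
    have hd : (sub (R k) C : Set (Finset V)).PairwiseDisjoint
        (fun D => (D : Set V) ×ˢ Set.Iic k) := by
      intro D hD D' hD' hne
      rw [Function.onFun, Set.disjoint_left]
      rintro ⟨v, j⟩ h1 h2
      exact hne (isClass_unique (mem_sub.1 (Finset.mem_coe.1 hD)).2
        (mem_sub.1 (Finset.mem_coe.1 hD')).2 (Finset.mem_coe.1 h1.1) (Finset.mem_coe.1 h2.1))
    have h2 := prod_sig (sub (R k) C) (fun D => (D : Set V) ×ˢ Set.Iic k)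
      (fun D => {ξ | part G D (Tk K G R ℓ ξ k) = part G D T}) hd
      (fun D hD => (hL D (mem_sub.1 hD).2 _).1)
    rw [← h1] at h2
    constructor
    · refine sig_mono ?_ _ h2.1
      intro x hx
      rw [Set.mem_iUnion₂] at hx
      obtain ⟨D, hD, hx⟩ := hx
      exact ⟨(mem_sub.1 hD).1 hx.1, hx.2⟩
    · intro hTt
      rw [h2.2, ENNReal.toReal_prod]
      unfold qq
      refine Finset.prod_congr rfl fun D hD => ?_
      refine (hL D (mem_sub.1 hD).2 _).2 ?_
      exact ((part_mem h6 (hR (Nat.le_succ k)) (hfin k) hC T).1 hTt).2 D (mem_sub.1 hD).2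
        (mem_sub.1 hD).1
  · have h1 : {ξ | part G C (Tk K G R ℓ ξ k) = T} = ∅ := by
      rw [Set.eq_empty_iff_forall_notMem]
      rintro ξ rfl
      apply hT
      intro e he
      exact mem_part.2 ⟨(mem_part.1 he).1, (Tk_sub K G R ℓ ξ k (mem_part.1 he).2).1⟩
    rw [h1]
    refine ⟨@MeasurableSet.empty _ (sig _), fun hTt => absurd (trees_sub hTt) hT⟩

theorem rkI_inj {ℓ : V → I} (hℓ : Function.Injective ℓ) {C : Finset V}
    {X Y : Finset (Sym2 V)} (hX : ∀ e ∈ X, ∀ a ∈ e, a ∈ C) (hY : ∀ e ∈ Y, ∀ a ∈ e, a ∈ C)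
    (h : rkI ℓ C X = rkI ℓ C Y) : X = Y := by
  ext e
  constructor
  · intro he
    rw [← mem_rkI hℓ hY (hX e he), ← h, mem_rkI hℓ hX (hX e he)]
    exact he
  · intro he
    rw [← mem_rkI hℓ hX (hY e he), h, mem_rkI hℓ hY (hY e he)]
    exact he

open Classical in
theorem trees_rkI (h7 : S_T7) {ℓ : V → I} (hℓ : Function.Injective ℓ) {C : Finset V}
    {E : Finset (Sym2 V)} (hE : ∀ e ∈ E, ∀ a ∈ e, a ∈ C) :
    trees ⊥ (rkI ℓ C E) = (trees ⊥ E).image (rkI ℓ C) := by
  ext X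
  rw [Finset.mem_image]
  constructor
  · intro hX
    have hsub := trees_sub hX
    have h1 : rkI ℓ C (E.filter (fun e => Sym2.map (rk ℓ C) e ∈ X)) = X := by
      ext x
      constructor
      · intro hx
        unfold rkI at hx
        rw [Finset.mem_image] at hx
        obtain ⟨e, he, rfl⟩ := hx
        exact (Finset.mem_filter.1 he).2
      · intro hx
        have hx' := hsub hx
        unfold rkI at hx'
        rw [Finset.mem_image] at hx'
        obtain ⟨e, he, rfl⟩ := hx'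
        unfold rkI
        rw [Finset.mem_image]
        exact ⟨e, Finset.mem_filter.2 ⟨he, hx⟩, rfl⟩
    refine ⟨E.filter (fun e => Sym2.map (rk ℓ C) e ∈ X), ?_, h1⟩
    rw [← rkI_trees h7 hℓ hE (Finset.filter_subset _ _), h1]
    exact hX
  · rintro ⟨T, hT, rfl⟩
    exact (rkI_trees h7 hℓ hE (trees_sub hT)).2 hT

theorem sum_trees_rkI (h7 : S_T7) {ℓ : V → I} (hℓ : Function.Injective ℓ) {C : Finset V}
    {E : Finset (Sym2 V)} (hE : ∀ e ∈ E, ∀ a ∈ e, a ∈ C) (g : Finset (Sym2 ℕ) → ℝ) :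
    ∑ X ∈ trees ⊥ (rkI ℓ C E), g X = ∑ T ∈ trees ⊥ E, g (rkI ℓ C T) := by
  classical
  rw [trees_rkI h7 hℓ hE, Finset.sum_image]
  intro T hT T' hT' h
  exact rkI_inj hℓ (fun e he => hE e (trees_sub hT he)) (fun e he => hE e (trees_sub hT' he)) h

theorem card_trees_rkI (h7 : S_T7) {ℓ : V → I} (hℓ : Function.Injective ℓ) {C : Finset V}
    {E : Finset (Sym2 V)} (hE : ∀ e ∈ E, ∀ a ∈ e, a ∈ C) :
    (trees (⊥ : Setoid ℕ) (rkI ℓ C E)).card = (trees (⊥ : Setoid V) E).card := by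
  classical
  rw [trees_rkI h7 hℓ hE, Finset.card_image_of_injOn]
  intro T hT T' hT' h
  exact rkI_inj hℓ (fun e he => hE e (trees_sub hT he)) (fun e he => hE e (trees_sub hT' he)) h

theorem choice_meas {K : Finset (Sym2 ℕ) → Finset (Sym2 ℕ) → Finset (Sym2 ℕ) → I → Finset (Sym2 ℕ)}
    (hK : IsKernel K) (G : SimpleGraph V) (s : Setoid V) (ℓ : V → I) (C : Finset V)
    (S T : Finset (Sym2 V)) : MeasurableSet {η | choice K G s ℓ C S η = T} := by
  have h1 : {η | choice K G s ℓ C S η = T} =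
      ⋃ X ∈ {X : Finset (Sym2 ℕ) | part G C {e | Sym2.map (rk ℓ C) e ∈ X} = T},
        {η | K (rkI ℓ C (ins G C)) (rkI ℓ C (part G C (Inn s))) (rkI ℓ C S) η = X} := by
    ext η
    rw [Set.mem_iUnion₂]
    constructor
    · intro h
      exact ⟨_, h, rfl⟩
    · rintro ⟨X, hX, hη⟩
      rw [Set.mem_setOf_eq] at hX hη ⊢
      unfold choice
      rw [hη]
      exact hX
  rw [h1]
  exact MeasurableSet.biUnion (Set.to_countable _) fun X _ => hK.meas _ _ _ X

theorem choice_eq_iff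
    {K : Finset (Sym2 ℕ) → Finset (Sym2 ℕ) → Finset (Sym2 ℕ) → I → Finset (Sym2 ℕ)}
    (hK : IsKernel K) (h7 : S_T7) {G : SimpleGraph V} {s : Setoid V} {ℓ : V → I}
    (hℓ : Function.Injective ℓ) {C : Finset V} {S T : Finset (Sym2 V)} {η : I}
    (hS : S ∈ trees ⊥ (part G C (Inn s))) (hT : T ⊆ ins G C) :
    choice K G s ℓ C S η = T ↔ K (rkI ℓ C (ins G C)) (rkI ℓ C (part G C (Inn s)))
      (rkI ℓ C S) η = rkI ℓ C T := by
  rw [← rkI_choice hK h7 hℓ hS]
  refine ⟨fun h => by rw [h], fun h => ?_⟩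
  exact rkI_inj hℓ (fun e he => (mem_ins.1 (part_sub he)).2) (fun e he => (mem_ins.1 (hT he)).2) h

theorem card_trees_pos (h6 : S_T6) (h7 : S_T7)
    {K : Finset (Sym2 ℕ) → Finset (Sym2 ℕ) → Finset (Sym2 ℕ) → I → Finset (Sym2 ℕ)}
    (hK : IsKernel K) (G : SimpleGraph V) (R : ℕ → Setoid V) {ℓ : V → I}
    (h0 : R 0 = ⊥) (hR : Monotone R) (hfin : ∀ k v, {w | R k v w}.Finite)
    (hℓ : Function.Injective ℓ) {k : ℕ} {C : Finset V} (hC : IsClass (R k) C) :
    ((trees ⊥ (ins G C)).card : ℝ) ≠ 0 := by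
  have := tre_aux h6 h7 hK G R (fun _ _ => 0) h0 hR hfin hℓ k C hC
  exact Nat.cast_ne_zero.2 (Finset.card_pos.2 ⟨_, this⟩).ne'

theorem law_succ (h6 : S_T6) (h7 : S_T7)
    {K : Finset (Sym2 ℕ) → Finset (Sym2 ℕ) → Finset (Sym2 ℕ) → I → Finset (Sym2 ℕ)}
    (hK : IsKernel K) {G : SimpleGraph V} {R : ℕ → Setoid V} {ℓ : V → I}
    (h0 : R 0 = ⊥) (hR : Monotone R) (hfin : ∀ k v, {w | R k v w}.Finite)
    (hℓ : Function.Injective ℓ) {k : ℕ} (hL : Law K G R ℓ k) : Law K G R ℓ (k + 1) := by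
  classical
  intro C hC T
  obtain ⟨v, hv, hv0⟩ := exists_rk_zero (ℓ := ℓ) (isClass_nonempty hC)
  set E' : Finset (Sym2 V) := part G C (Inn (R k)) with hE'
  set A : Finset (Sym2 V) → Set (V → ℕ → I) := fun S => {ξ | part G C (Tk K G R ℓ ξ k) = S} with hA
  set B : Finset (Sym2 V) → Set (V → ℕ → I) :=
    fun S => {ξ | choice K G (R k) ℓ C S (ξ v (k + 1)) = T} with hB
  have hc : ∀ ξ, part G C (Tk K G R ℓ ξ k) ∈ trees ⊥ E' := fun ξ =>
    bc h6 (hR (Nat.le_succ k)) (hfin k) (fun e he => (Tk_sub K G R ℓ ξ k he).1)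
      (tre_aux h6 h7 hK G R ξ h0 hR hfin hℓ k) hC
  have hU : {ξ | part G C (Tk K G R ℓ ξ (k + 1)) = T} = ⋃ S ∈ trees ⊥ E', A S ∩ B S := by
    ext ξ
    rw [Set.mem_iUnion₂, Set.mem_setOf_eq, part_Tk_succ K G R hℓ ξ k hC hv hv0]
    constructor
    · intro h
      exact ⟨_, hc ξ, rfl, h⟩
    · rintro ⟨S, hS, h1, h2⟩
      rw [hA, Set.mem_setOf_eq] at h1
      rw [h1]
      exact h2
  have hAm : ∀ S, MeasurableSet[sig ((C : Set V) ×ˢ Set.Iic k)] (A S) := fun S =>
    (law_sub h6 hR hfin hL hC S).1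
  have hBm : ∀ S, MeasurableSet[sig {(v, k + 1)}] (B S) := by
    intro S
    have h1 : cm (v, k + 1) ≤ sig {(v, k + 1)} := by
      unfold sig
      exact le_iSup₂_of_le (v, k + 1) rfl le_rfl
    exact h1 _ ⟨_, choice_meas hK G (R k) ℓ C S T, rfl⟩
  have hsA : sig ((C : Set V) ×ˢ Set.Iic k) ≤ sig ((C : Set V) ×ˢ Set.Iic (k + 1)) :=
    sig_mono fun x hx => ⟨hx.1, le_trans hx.2 (Nat.le_succ k)⟩
  have hsB : sig {(v, k + 1)} ≤ sig ((C : Set V) ×ˢ Set.Iic (k + 1)) := by
    refine sig_mono fun x hx => ?_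
    rw [Set.mem_singleton_iff] at hx
    rw [hx]
    exact ⟨Finset.mem_coe.2 hv, Set.mem_Iic.2 le_rfl⟩
  have hABm : ∀ S, MeasurableSet[sig ((C : Set V) ×ˢ Set.Iic (k + 1))] (A S ∩ B S) := fun S =>
    @MeasurableSet.inter _ (sig _) _ _ (hsA _ (hAm S)) (hsB _ (hBm S))
  refine ⟨?_, fun hT => ?_⟩
  · rw [hU]
    exact @Finset.measurableSet_biUnion _ _ (sig _) _ _ (fun S _ => hABm S)
  · have hdisj : Disjoint ((C : Set V) ×ˢ Set.Iic k) {(v, k + 1)} := by
      rw [Set.disjoint_singleton_right]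
      rintro ⟨-, h⟩
      have h' : k + 1 ≤ k := h
      omega
    have hAB : ∀ S ∈ trees ⊥ E', (labels2 V (A S ∩ B S)).toReal = qq G (R k) C *
        (volume {η | K (rkI ℓ C (ins G C)) (rkI ℓ C E') (rkI ℓ C S) η = rkI ℓ C T}).toReal := by
      intro S hS
      rw [(Indep_iff _ _ _).1 (indep_sig hdisj) (A S) (B S) (hAm S) (hBm S), ENNReal.toReal_mul,
        (law_sub h6 hR hfin hL hC S).2 hS]
      congr 2
      refine (labels2_coord v (k + 1) (B := {η | choice K G (R k) ℓ C S η = T})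
        (choice_meas hK G (R k) ℓ C S T)).trans ?_
      congr 1
      ext η
      exact choice_eq_iff hK h7 hℓ hS (trees_sub hT)
    have hone : (((trees ⊥ E').card : ℝ)) * qq G (R k) C = 1 := by
      have h1 : (⋃ S ∈ trees ⊥ E', A S) = Set.univ := by
        rw [Set.eq_univ_iff_forall]
        intro ξ
        rw [Set.mem_iUnion₂]
        exact ⟨_, hc ξ, rfl⟩
      have h2 : labels2 V (⋃ S ∈ trees ⊥ E', A S) = ∑ S ∈ trees ⊥ E', labels2 V (A S) := by
        refine measure_biUnion_finset ?_ fun S _ => sig_le _ _ (hAm S)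
        intro S _ S' _ hne
        rw [Function.onFun, Set.disjoint_left]
        intro ξ h h'
        exact hne (Eq.trans (Eq.symm h) h')
      rw [h1, measure_univ] at h2
      have h3 := congrArg ENNReal.toReal h2
      rw [ENNReal.toReal_sum (fun S _ => measure_ne_top _ _),
        Finset.sum_congr rfl (fun S hS => (law_sub h6 hR hfin hL hC S).2 hS)] at h3
      rw [Finset.sum_const, nsmul_eq_mul] at h3
      rw [← h3]
      simp
    have h4 : labels2 V (⋃ S ∈ trees ⊥ E', A S ∩ B S) =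
        ∑ S ∈ trees ⊥ E', labels2 V (A S ∩ B S) := by
      refine measure_biUnion_finset ?_ fun S _ => sig_le _ _ (hABm S)
      intro S _ S' _ hne
      rw [Function.onFun, Set.disjoint_left]
      intro ξ h h'
      exact hne (Eq.trans (Eq.symm h.1) h'.1)
    have hpC : ∀ e ∈ E', ∀ a ∈ e, a ∈ C := fun e he => (mem_ins.1 (part_sub he)).2
    have hN := card_trees_pos h6 h7 hK G R h0 hR hfin hℓ hC
    rw [hU, h4, ENNReal.toReal_sum (fun S _ => measure_ne_top _ _), Finset.sum_congr rfl hAB,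
      ← Finset.mul_sum,
      ← sum_trees_rkI h7 hℓ hpC (fun X => (volume {η | K (rkI ℓ C (ins G C)) (rkI ℓ C E') X η =
        rkI ℓ C T}).toReal),
      hK.unif _ _ _ (rkI_mono part_sub)
        ((rkI_trees h7 hℓ (fun e he => (mem_ins.1 he).2) (trees_sub hT)).2 hT),
      card_trees_rkI h7 hℓ hpC, card_trees_rkI h7 hℓ (fun e he => (mem_ins.1 he).2)]
    rw [← mul_div_assoc, mul_comm (qq G (R k) C), hone, one_div]

theorem law_zero {K : Finset (Sym2 ℕ) → Finset (Sym2 ℕ) → Finset (Sym2 ℕ) → I → Finset (Sym2 ℕ)}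
    {G : SimpleGraph V} {R : ℕ → Setoid V} {ℓ : V → I}
    (h0 : R 0 = ⊥) : Law K G R ℓ 0 := by
  intro C hC T
  have h1 : ins G C = ∅ := by
    rw [Finset.eq_empty_iff_forall_notMem]
    intro e he
    induction e using Sym2.ind with
    | _ a b =>
    rw [mem_ins] at he
    have ha := he.2 a (Sym2.mem_mk_left a b)
    have hb := he.2 b (Sym2.mem_mk_right a b)
    have hab : R 0 a b := (isClass_rel hC ha).1 hb
    rw [h0, Setoid.bot_def] at hab
    subst hab
    exact G.loopless.irrefl a (G.mem_edgeSet.1 he.1)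
  have h2 : ∀ ξ, part G C (Tk K G R ℓ ξ 0) = ∅ := by
    intro ξ
    have := part_sub (G := G) (C := C) (S := Tk K G R ℓ ξ 0)
    rw [h1] at this
    exact Finset.subset_empty.1 this
  constructor
  · by_cases hT : T = ∅
    · have : {ξ | part G C (Tk K G R ℓ ξ 0) = T} = Set.univ := by
        ext ξ
        simp [h2, hT]
      rw [this]
      exact @MeasurableSet.univ _ (sig _)
    · have : {ξ | part G C (Tk K G R ℓ ξ 0) = T} = ∅ := by
        ext ξ
        simp [h2, Ne.symm hT]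
      rw [this]
      exact @MeasurableSet.empty _ (sig _)
  · intro hT
    rw [h1] at hT ⊢
    have hT' : T = ∅ := Finset.subset_empty.1 (trees_sub hT)
    have h3 : {ξ | part G C (Tk K G R ℓ ξ 0) = T} = Set.univ := by
      ext ξ
      simp [h2, hT']
    have h4 : trees (⊥ : Setoid V) ∅ = {∅} := by
      ext X
      rw [Finset.mem_singleton]
      refine ⟨fun h => Finset.subset_empty.1 (trees_sub h), fun h => ?_⟩
      rw [h]
      exact empty_mem_trees _
    rw [h3, h4]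
    simp

theorem law_all (h6 : S_T6) (h7 : S_T7)
    {K : Finset (Sym2 ℕ) → Finset (Sym2 ℕ) → Finset (Sym2 ℕ) → I → Finset (Sym2 ℕ)}
    (hK : IsKernel K) {G : SimpleGraph V} {R : ℕ → Setoid V} {ℓ : V → I}
    (h0 : R 0 = ⊥) (hR : Monotone R) (hfin : ∀ k v, {w | R k v w}.Finite)
    (hℓ : Function.Injective ℓ) (k : ℕ) : Law K G R ℓ k := by
  induction k with
  | zero => exact law_zero h0
  | succ k ih => exact law_succ h6 h7 hK h0 hR hfin hℓ ih

theorem LAW : S_T6 → S_T7 → S_T8 → S_LAW := by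
  classical
  intro h6 h7 h8 K hK V _ G R ℓ h0 hR hfin hℓ k C hC F A hF
  have hL := law_all h6 h7 hK (G := G) h0 hR hfin hℓ k C hC
  have hb : ∀ ξ, part G C (Tk K G R ℓ ξ k) ∈ trees ⊥ (ins G C) := fun ξ =>
    tre_aux h6 h7 hK G R ξ h0 hR hfin hℓ k C hC
  have hcap : ∀ ξ, Tk K G R ℓ ξ k ∩ F = (part G C (Tk K G R ℓ ξ k) : Set (Sym2 V)) ∩ F := by
    intro ξ
    ext e
    refine ⟨fun h => ⟨?_, h.2⟩, fun h => ⟨(mem_part.1 (Finset.mem_coe.1 h.1)).2, h.2⟩⟩
    exact Finset.mem_coe.2 (mem_part.2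
      ⟨hF e (Finset.mem_coe.1 h.2) (Tk_sub K G R ℓ ξ k h.1).2, h.1⟩)
  have hU : {ξ | Tk K G R ℓ ξ k ∩ F = A} =
      ⋃ T ∈ (trees ⊥ (ins G C)).filter (fun T : Finset (Sym2 V) => (T : Set (Sym2 V)) ∩ F = A),
        {ξ | part G C (Tk K G R ℓ ξ k) = T} := by
    ext ξ
    rw [Set.mem_iUnion₂, Set.mem_setOf_eq, hcap ξ]
    constructor
    · intro h
      exact ⟨_, Finset.mem_filter.2 ⟨hb ξ, h⟩, rfl⟩
    · rintro ⟨T, hT, h⟩
      rw [Set.mem_setOf_eq] at h
      rw [h]
      exact (Finset.mem_filter.1 hT).2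
  have hm : ∀ T, MeasurableSet {ξ | part G C (Tk K G R ℓ ξ k) = T} := fun T =>
    sig_le _ _ (hL T).1
  refine ⟨?_, ?_⟩
  · rw [hU]
    exact Finset.measurableSet_biUnion _ fun T _ => hm T
  · have h4 : labels2 V {ξ | Tk K G R ℓ ξ k ∩ F = A} =
        ∑ T ∈ (trees ⊥ (ins G C)).filter (fun T : Finset (Sym2 V) => (T : Set (Sym2 V)) ∩ F = A),
          labels2 V {ξ | part G C (Tk K G R ℓ ξ k) = T} := by
      rw [hU]
      refine measure_biUnion_finset ?_ fun T _ => hm T
      intro S _ S' _ hne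
      rw [Function.onFun, Set.disjoint_left]
      intro ξ h h'
      exact hne (Eq.trans (Eq.symm h) h')
    rw [h4, ENNReal.toReal_sum (fun S _ => measure_ne_top _ _),
      Finset.sum_congr rfl (fun T hT => (hL T).2 (Finset.mem_filter.1 hT).1), h8 V ⊥ (ins G C) F A]
    unfold Av
    rw [Finset.sum_const, nsmul_eq_mul, Finset.card_filter, div_eq_mul_inv]
    congr 1
    push_cast
    refine Finset.sum_congr rfl fun T _ => ?_
    congr 1

end Run7.h847.WU
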